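import Pool.Agent.H242.LD.Stm2

set_option autoImplicit false

/-!
# LE-LEN (project LE of helper242): total length of the crossings of arcs
-/

namespace Pool.Agent.H673.LE

open Real Set Filter Topology
open Pool.Agent.H242.LD Pool.Agent.H242.TM

/-- the increasing case -/
theorem len_pos (hDIST : S_DIST) (g : ℝ → ℝ) (s t ω G₁ G₂ : ℝ) (hst : s < t) (hω : 0 < ω)
    (hω' : ω ≤ 1 / 16) (hG : 0 < G₁) (hg : ContDiff ℝ 2 g)
    (hpos : ∀ τ ∈ Icc s t, G₁ ≤ deriv g τ ∧ deriv g τ ≤ G₂)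
    (hcurv : ∀ τ ∈ Icc s t, |deriv (deriv g) τ| ≤ 1 / 10 * (deriv g τ) ^ 2) :
    ∃ (N : ℕ) (k : Fin N → ℤ) (u v : Fin N → ℝ),
    (∀ i, s ≤ u i ∧ u i < v i ∧ v i ≤ t ∧ v i - u i ≤ 1 / 2 / G₁ ∧
      Cross g (u i) (v i) (lo ω (k i)) (hi ω (k i))) ∧
    (∀ i j, i ≠ j → ∀ x ∈ Icc (u i) (v i), ∀ x' ∈ Icc (u j) (v j), 2 * ω / G₂ ≤ |x - x'|) ∧
    (1 - 7 * ω) * ((t - s) - 6 / 5 / G₁) ≤ ∑ i, (v i - u i) := by
  have hdiff : Differentiable ℝ g := hg.differentiable (by norm_num)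
  have hcont : Continuous g := hg.continuous
  have hs : s ∈ Icc s t := ⟨le_rfl, hst.le⟩
  have ht : t ∈ Icc s t := ⟨hst.le, le_rfl⟩
  have hG2 : 0 < G₂ := lt_of_lt_of_le hG ((hpos s hs).1.trans (hpos s hs).2)
  have hlow : ∀ x ∈ Icc s t, ∀ y ∈ Icc s t, x ≤ y → G₁ * (y - x) ≤ g y - g x :=
    (convex_Icc s t).mul_sub_le_image_sub_of_le_deriv hcont.continuousOn hdiff.differentiableOn
      (fun x hx => (hpos x (interior_subset hx)).1)
  have hup : ∀ x ∈ Icc s t, ∀ y ∈ Icc s t, x ≤ y → g y - g x ≤ G₂ * (y - x) :=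
    (convex_Icc s t).image_sub_le_mul_sub_of_deriv_le hcont.continuousOn hdiff.differentiableOn
      (fun x hx => (hpos x (interior_subset hx)).2)
  have hmono : ∀ x ∈ Icc s t, ∀ y ∈ Icc s t, x ≤ y → g x ≤ g y := by
    intro x hx y hy hxy
    have h1 := hlow x hx y hy hxy
    have h2 : 0 ≤ G₁ * (y - x) := mul_nonneg hG.le (by linarith)
    linarith
  have hinv : ∀ x ∈ Icc s t, ∀ y ∈ Icc s t, g x ≤ g y → x ≤ y := by
    intro x hx y hy h
    by_contra hxy
    push Not at hxy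
    have h1 := hlow y hy x hx hxy.le
    have h2 : 0 < G₁ * (x - y) := mul_pos hG (by linarith)
    linarith
  have hP : ∀ w ∈ Icc (g s) (g t), ∃ p ∈ Icc s t, g p = w := fun w hw =>
    intermediate_value_Icc hst.le hcont.continuousOn hw
  choose! P hPmem hPval using hP
  have hgst : g s ≤ g t := hmono s hs t ht hst.le
  have hPs : P (g s) = s := by
    have hm : g s ∈ Icc (g s) (g t) := ⟨le_rfl, hgst⟩
    exact le_antisymm (hinv _ (hPmem _ hm) _ hs (hPval _ hm).le)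
      (hinv _ hs _ (hPmem _ hm) (hPval _ hm).ge)
  have hPt : P (g t) = t := by
    have hm : g t ∈ Icc (g s) (g t) := ⟨hgst, le_rfl⟩
    exact le_antisymm (hinv _ (hPmem _ hm) _ ht (hPval _ hm).le)
      (hinv _ ht _ (hPmem _ hm) (hPval _ hm).ge)
  have hPle : ∀ w₁ ∈ Icc (g s) (g t), ∀ w₂ ∈ Icc (g s) (g t), w₁ ≤ w₂ → P w₁ ≤ P w₂ := by
    intro w₁ h1 w₂ h2 h
    refine hinv _ (hPmem _ h1) _ (hPmem _ h2) ?_
    rw [hPval _ h1, hPval _ h2]; exact h
  have hPlt : ∀ w₁ ∈ Icc (g s) (g t), ∀ w₂ ∈ Icc (g s) (g t), w₁ < w₂ → P w₁ < P w₂ := by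
    intro w₁ h1 w₂ h2 h
    refine lt_of_le_of_ne (hPle _ h1 _ h2 h.le) ?_
    intro he
    have := congrArg g he
    rw [hPval _ h1, hPval _ h2] at this
    exact h.ne this
  have hPdiff : ∀ w₁ ∈ Icc (g s) (g t), ∀ w₂ ∈ Icc (g s) (g t), w₁ ≤ w₂ →
      P w₂ - P w₁ ≤ (w₂ - w₁) / G₁ := by
    intro w₁ h1 w₂ h2 h
    rw [le_div_iff₀ hG]
    have := hlow _ (hPmem _ h1) _ (hPmem _ h2) (hPle _ h1 _ h2 h)
    rw [hPval _ h1, hPval _ h2] at this
    linarith
  have hdist : ∀ w₁ ∈ Icc (g s) (g t), ∀ w₂ ∈ Icc (g s) (g t), ∀ w₃ ∈ Icc (g s) (g t),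
      w₁ < w₂ → w₂ < w₃ → w₃ - w₁ ≤ 1 / 2 →
      (P w₂ - P w₁) * (w₃ - w₂) ≤ exp (1 / 20) * ((P w₃ - P w₂) * (w₂ - w₁)) := by
    intro w₁ h1 w₂ h2 w₃ h3 h12 h23 h13
    have p12 := hPlt _ h1 _ h2 h12
    have p23 := hPlt _ h2 _ h3 h23
    obtain ⟨ξ, hξ, hξ'⟩ := exists_deriv_eq_slope g p12 hcont.continuousOn hdiff.differentiableOn
    obtain ⟨η, hη, hη'⟩ := exists_deriv_eq_slope g p23 hcont.continuousOn hdiff.differentiableOn
    rw [hPval _ h1, hPval _ h2] at hξ'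
    rw [hPval _ h2, hPval _ h3] at hη'
    have hξm : ξ ∈ Icc s t := ⟨(hPmem _ h1).1.trans hξ.1.le, hξ.2.le.trans (hPmem _ h2).2⟩
    have hηm : η ∈ Icc s t := ⟨(hPmem _ h2).1.trans hη.1.le, hη.2.le.trans (hPmem _ h3).2⟩
    have a1 := hmono _ (hPmem _ h1) _ hξm hξ.1.le
    have a2 := hmono _ hξm _ (hPmem _ h2) hξ.2.le
    have a3 := hmono _ (hPmem _ h2) _ hηm hη.1.le
    have a4 := hmono _ hηm _ (hPmem _ h3) hη.2.le
    rw [hPval _ h1] at a1
    rw [hPval _ h2] at a2 a3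
    rw [hPval _ h3] at a4
    have hD := hDIST g s t (1 / 10) (by norm_num) hg
      (fun τ hτ => (lt_of_lt_of_le hG (hpos τ hτ).1).ne') hcurv η hηm ξ hξm
    have hξp : 0 < deriv g ξ := lt_of_lt_of_le hG (hpos ξ hξm).1
    have hηp : 0 < deriv g η := lt_of_lt_of_le hG (hpos η hηm).1
    rw [abs_of_pos hξp, abs_of_pos hηp] at hD
    have hab : |g η - g ξ| ≤ 1 / 2 := by rw [abs_le]; constructor <;> linarith
    have hexp : exp (1 / 10 * |g η - g ξ|) ≤ exp (1 / 20) := exp_le_exp.mpr (by linarith)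
    have hD' : deriv g η ≤ exp (1 / 20) * deriv g ξ :=
      hD.trans (mul_le_mul_of_nonneg_right hexp hξp.le)
    have d12 : 0 < P w₂ - P w₁ := by linarith
    have d23 : 0 < P w₃ - P w₂ := by linarith
    have e1 : w₂ - w₁ = deriv g ξ * (P w₂ - P w₁) := by rw [hξ']; field_simp
    have e2 : w₃ - w₂ = deriv g η * (P w₃ - P w₂) := by rw [hη']; field_simp
    rw [e1, e2]
    have h5 : 0 ≤ (P w₂ - P w₁) * (P w₃ - P w₂) := by positivity
    calc (P w₂ - P w₁) * (deriv g η * (P w₃ - P w₂))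
        = ((P w₂ - P w₁) * (P w₃ - P w₂)) * deriv g η := by ring
      _ ≤ ((P w₂ - P w₁) * (P w₃ - P w₂)) * (exp (1 / 20) * deriv g ξ) :=
          mul_le_mul_of_nonneg_left hD' h5
      _ = exp (1 / 20) * ((P w₃ - P w₂) * (deriv g ξ * (P w₂ - P w₁))) := by ring
  have hexp20 : exp (1 / 20) ≤ 1.06 := by
    have h := Real.exp_bound_div_one_sub_of_interval (x := 1 / 20) (by norm_num) (by norm_num)
    refine h.trans (by norm_num)
  -- the numbers of the arcs
  set k₀ : ℤ := ⌈2 * g s + 1 / 2⌉ with hk₀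
  set k₁ : ℤ := ⌊2 * g t - 1 / 2⌋ with hk₁
  have hk₀1 : 2 * g s + 1 / 2 ≤ (k₀ : ℝ) := Int.le_ceil _
  have hk₀2 : (k₀ : ℝ) < 2 * g s + 1 / 2 + 1 := Int.ceil_lt_add_one _
  have hk₁1 : (k₁ : ℝ) ≤ 2 * g t - 1 / 2 := Int.floor_le _
  have hk₁2 : 2 * g t - 1 / 2 < (k₁ : ℝ) + 1 := Int.lt_floor_add_one _
  rcases lt_or_ge k₁ k₀ with hlt | hge
  · refine ⟨0, Fin.elim0, Fin.elim0, Fin.elim0, fun i => i.elim0, fun i => i.elim0, ?_⟩
    have h1 : (k₁ : ℝ) + 1 ≤ k₀ := by exact_mod_cast hlt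
    have h2 : g t - g s < 1 := by linarith
    have h3 : t - s ≤ 6 / 5 / G₁ := by
      rw [le_div_iff₀ hG]
      have := hlow s hs t ht hst.le
      linarith
    simp only [Finset.univ_eq_empty, Finset.sum_empty]
    exact mul_nonpos_of_nonneg_of_nonpos (by linarith) (by linarith)
  · obtain ⟨n₁, hn₁⟩ := Int.eq_ofNat_of_zero_le (sub_nonneg.mpr hge)
    have hn₁' : (n₁ : ℝ) = (k₁ : ℝ) - k₀ := by
      have := congrArg (fun z : ℤ => (z : ℝ)) hn₁
      push_cast at this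
      linarith
    -- the values
    have hloM : ∀ i : ℕ, i ≤ n₁ → lo ω (k₀ + i) ∈ Icc (g s) (g t) := by
      intro i hi
      have hi' : (i : ℝ) ≤ n₁ := by exact_mod_cast hi
      have hi0 : (0 : ℝ) ≤ i := by positivity
      unfold lo
      push_cast
      constructor <;> linarith
    have hhiM : ∀ i : ℕ, i ≤ n₁ → hi ω (k₀ + i) ∈ Icc (g s) (g t) := by
      intro i hi
      have hi' : (i : ℝ) ≤ n₁ := by exact_mod_cast hi
      have hi0 : (0 : ℝ) ≤ i := by positivity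
      unfold Pool.Agent.H242.LD.hi
      push_cast
      constructor <;> linarith
    have hlohi : ∀ i : ℕ, lo ω (k₀ + i) < Pool.Agent.H242.LD.hi ω (k₀ + i) := by
      intro i
      unfold lo Pool.Agent.H242.LD.hi
      linarith
    set U : ℕ → ℝ := fun i => P (lo ω (k₀ + i)) with hU
    set V : ℕ → ℝ := fun i => P (Pool.Agent.H242.LD.hi ω (k₀ + i)) with hV
    have hUV : ∀ i : ℕ, i ≤ n₁ → U i < V i := fun i hi =>
      hPlt _ (hloM i hi) _ (hhiM i hi) (hlohi i)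
    have hgap : ∀ i : ℕ, i + 1 ≤ n₁ → U (i + 1) - V i ≤ 6 * ω * (V (i + 1) - U (i + 1)) := by
      intro i hi
      have hi' : i ≤ n₁ := by omega
      have e12 : lo ω (k₀ + (i + 1 : ℕ)) - Pool.Agent.H242.LD.hi ω (k₀ + i) = 2 * ω := by
        unfold lo Pool.Agent.H242.LD.hi; push_cast; ring
      have e23 : Pool.Agent.H242.LD.hi ω (k₀ + (i + 1 : ℕ)) - lo ω (k₀ + (i + 1 : ℕ)) =
          1 / 2 - 2 * ω := by
        unfold lo Pool.Agent.H242.LD.hi; push_cast; ring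
      have h := hdist _ (hhiM i hi') _ (hloM (i + 1) hi) _ (hhiM (i + 1) hi) (by linarith)
        (by linarith) (by linarith)
      rw [e12, e23] at h
      have hA : 0 < V (i + 1) - U (i + 1) := by linarith [hUV (i + 1) hi]
      have hgp : 0 ≤ U (i + 1) - V i :=
        sub_nonneg.mpr (hPle _ (hhiM i hi') _ (hloM (i + 1) hi) (by linarith))
      have h2 : (U (i + 1) - V i) * (1 / 2 - 2 * ω) ≤
          1.06 * ((V (i + 1) - U (i + 1)) * (2 * ω)) :=
        h.trans (mul_le_mul_of_nonneg_right hexp20 (by positivity))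
      have h3 : 3 / 8 * (U (i + 1) - V i) ≤ (U (i + 1) - V i) * (1 / 2 - 2 * ω) := by
        nlinarith
      have h4 : 0 ≤ ω * (V (i + 1) - U (i + 1)) := by positivity
      nlinarith
    have hchain : ∀ n : ℕ, n ≤ n₁ → V n - U 0 ≤
        (1 + 6 * ω) * ∑ i ∈ Finset.range (n + 1), (V i - U i) := by
      intro n
      induction n with
      | zero =>
        intro _
        rw [Finset.sum_range_succ, Finset.sum_range_zero, zero_add]
        have := hUV 0 (Nat.zero_le _)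
        nlinarith
      | succ n ih =>
        intro hn
        have h1 := ih (by omega)
        have h2 := hgap n hn
        rw [Finset.sum_range_succ]
        nlinarith
    have hnonneg : 0 ≤ ∑ i ∈ Finset.range (n₁ + 1), (V i - U i) :=
      Finset.sum_nonneg fun i hi => by
        have := hUV i (by have := Finset.mem_range.mp hi; omega)
        linarith
    have hfirst : U 0 - s ≤ 3 / 5 / G₁ := by
      have h1 := hPdiff _ ⟨le_rfl, hgst⟩ _ (hloM 0 (Nat.zero_le _)) (hloM 0 (Nat.zero_le _)).1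
      rw [hPs] at h1
      refine h1.trans ((div_le_div_iff_of_pos_right hG).mpr ?_)
      unfold lo
      push_cast
      linarith
    have hlast : t - V n₁ ≤ 3 / 5 / G₁ := by
      have h1 := hPdiff _ (hhiM n₁ le_rfl) _ ⟨hgst, le_rfl⟩ (hhiM n₁ le_rfl).2
      rw [hPt] at h1
      refine h1.trans ((div_le_div_iff_of_pos_right hG).mpr ?_)
      unfold Pool.Agent.H242.LD.hi
      push_cast
      linarith
    have hin : ∀ (i : ℕ), i ≤ n₁ → ∀ x ∈ Icc (U i) (V i), x ∈ Icc s t ∧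
        lo ω (k₀ + i) ≤ g x ∧ g x ≤ Pool.Agent.H242.LD.hi ω (k₀ + i) := by
      intro i hi x hx
      have hxm : x ∈ Icc s t :=
        ⟨(hPmem _ (hloM i hi)).1.trans hx.1, hx.2.trans (hPmem _ (hhiM i hi)).2⟩
      refine ⟨hxm, ?_, ?_⟩
      · have := hmono _ (hPmem _ (hloM i hi)) _ hxm hx.1
        rwa [hPval _ (hloM i hi)] at this
      · have := hmono _ hxm _ (hPmem _ (hhiM i hi)) hx.2
        rwa [hPval _ (hhiM i hi)] at this
    have hsep : ∀ i j : ℕ, i ≤ n₁ → j ≤ n₁ → i < j → ∀ x ∈ Icc (U i) (V i),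
        ∀ x' ∈ Icc (U j) (V j), 2 * ω / G₂ ≤ |x - x'| := by
      intro i j hi hj hij x hx x' hx'
      obtain ⟨m1, -, b1⟩ := hin i hi x hx
      obtain ⟨m2, b2, -⟩ := hin j hj x' hx'
      have hij' : (i : ℝ) + 1 ≤ j := by exact_mod_cast hij
      have h1 : 2 * ω ≤ g x' - g x := by
        unfold Pool.Agent.H242.LD.hi at b1
        unfold lo at b2
        push_cast at b1 b2
        linarith
      have h2 : x ≤ x' := hinv _ m1 _ m2 (by linarith)
      have h3 := hup _ m1 _ m2 h2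
      rw [abs_sub_comm, abs_of_nonneg (by linarith), div_le_iff₀ hG2]
      linarith
    refine ⟨n₁ + 1, fun i => k₀ + (i : ℕ), fun i => U i, fun i => V i, ?_, ?_, ?_⟩
    · intro i
      have hi : (i : ℕ) ≤ n₁ := by have := i.isLt; omega
      refine ⟨(hPmem _ (hloM i hi)).1, hUV i hi, (hPmem _ (hhiM i hi)).2, ?_, (hUV i hi).le,
        Or.inl ⟨hPval _ (hloM i hi), hPval _ (hhiM i hi)⟩, fun τ hτ => (hin i hi τ hτ).2⟩
      refine (hPdiff _ (hloM i hi) _ (hhiM i hi) (hlohi i).le).trans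
        ((div_le_div_iff_of_pos_right hG).mpr ?_)
      unfold lo Pool.Agent.H242.LD.hi
      linarith
    · intro i j hij x hx x' hx'
      have hi : (i : ℕ) ≤ n₁ := by have := i.isLt; omega
      have hj : (j : ℕ) ≤ n₁ := by have := j.isLt; omega
      rcases lt_or_gt_of_ne (fun h => hij (Fin.ext h) : (i : ℕ) ≠ (j : ℕ)) with h | h
      · exact hsep i j hi hj h x hx x' hx'
      · rw [abs_sub_comm]
        exact hsep j i hj hi h x' hx' x hx
    · rw [Fin.sum_univ_eq_sum_range (fun i => V i - U i) (n₁ + 1)]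
      have h1 := hchain n₁ le_rfl
      have h2 : (t - s) - 6 / 5 / G₁ ≤
          (1 + 6 * ω) * ∑ i ∈ Finset.range (n₁ + 1), (V i - U i) := by
        have h3 : 6 / 5 / G₁ = 3 / 5 / G₁ + 3 / 5 / G₁ := by ring
        rw [h3]
        linarith
      have h4 : (1 - 7 * ω) * ((t - s) - 6 / 5 / G₁) ≤
          (1 - 7 * ω) * ((1 + 6 * ω) * ∑ i ∈ Finset.range (n₁ + 1), (V i - U i)) :=
        mul_le_mul_of_nonneg_left h2 (by linarith)
      have h5 : (1 - 7 * ω) * (1 + 6 * ω) ≤ 1 := by nlinarith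
      calc (1 - 7 * ω) * ((t - s) - 6 / 5 / G₁)
          ≤ ((1 - 7 * ω) * (1 + 6 * ω)) * ∑ i ∈ Finset.range (n₁ + 1), (V i - U i) := by
            rw [mul_assoc]; exact h4
        _ ≤ 1 * ∑ i ∈ Finset.range (n₁ + 1), (V i - U i) :=
            mul_le_mul_of_nonneg_right h5 hnonneg
        _ = ∑ i ∈ Finset.range (n₁ + 1), (V i - U i) := one_mul _

/-- **LE-LEN.** Total length of the crossings of arcs. -/
theorem le_LEN (hDIST : S_DIST) : S_LEN := by
  intro g s t ω G₁ G₂ hst hω hω' hG hg hder hcurv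
  have hcd : Continuous (deriv g) := hg.continuous_deriv (by norm_num)
  have hne : ∀ τ ∈ Icc s t, deriv g τ ≠ 0 := by
    intro τ hτ h
    have := (hder τ hτ).1
    rw [h, abs_zero] at this
    linarith
  have hs : s ∈ Icc s t := ⟨le_rfl, hst.le⟩
  rcases lt_or_gt_of_ne (hne s hs) with hneg | hpos
  · -- decreasing
    have hall : ∀ τ ∈ Icc s t, deriv g τ < 0 := by
      intro τ hτ
      by_contra hc
      push Not at hc
      obtain ⟨z, hz, hz'⟩ := intermediate_value_Icc hτ.1 hcd.continuousOn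
        (show (0 : ℝ) ∈ Icc (deriv g s) (deriv g τ) from ⟨hneg.le, hc⟩)
      exact hne z ⟨hz.1, hz.2.trans hτ.2⟩ hz'
    have hd1 : deriv (fun x => -g x) = fun x => -deriv g x := by
      funext x; exact deriv.fun_neg
    have hd2 : deriv (deriv (fun x => -g x)) = fun x => -deriv (deriv g) x := by
      rw [hd1]; funext x; exact deriv.fun_neg
    obtain ⟨N, k, u, v, h1, h2, h3⟩ := len_pos hDIST (fun x => -g x) s t ω G₁ G₂ hst hω hω' hG
      hg.neg (fun τ hτ => by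
        rw [hd1]
        have := hder τ hτ
        rw [abs_of_neg (hall τ hτ)] at this
        exact this)
      (fun τ hτ => by
        rw [hd2, hd1]
        simp only [abs_neg, neg_sq]
        exact hcurv τ hτ)
    refine ⟨N, fun i => -k i, u, v, fun i => ?_, h2, h3⟩
    obtain ⟨b1, b2, b3, b4, b5, b6, b7⟩ := h1 i
    have e1 : lo ω (-k i) = -Pool.Agent.H242.LD.hi ω (k i) := by
      unfold lo Pool.Agent.H242.LD.hi; push_cast; ring
    have e2 : Pool.Agent.H242.LD.hi ω (-k i) = -lo ω (k i) := by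
      unfold lo Pool.Agent.H242.LD.hi; push_cast; ring
    refine ⟨b1, b2, b3, b4, b5, ?_, ?_⟩
    · rw [e1, e2]
      rcases b6 with ⟨c1, c2⟩ | ⟨c1, c2⟩
      · right; constructor <;> linarith
      · left; constructor <;> linarith
    · intro τ hτ
      rw [e1, e2]
      have := b7 τ hτ
      constructor <;> linarith [this.1, this.2]
  · have hall : ∀ τ ∈ Icc s t, 0 < deriv g τ := by
      intro τ hτ
      by_contra hc
      push Not at hc
      obtain ⟨z, hz, hz'⟩ := intermediate_value_Icc' hτ.1 hcd.continuousOn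
        (show (0 : ℝ) ∈ Icc (deriv g τ) (deriv g s) from ⟨hc, hpos.le⟩)
      exact hne z ⟨hz.1, hz.2.trans hτ.2⟩ hz'
    exact len_pos hDIST g s t ω G₁ G₂ hst hω hω' hG hg (fun τ hτ => by
      have := hder τ hτ
      rw [abs_of_pos (hall τ hτ)] at this
      exact this) hcurv

end Pool.Agent.H673.LE
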